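import Pool.Agent.Helper7.KT.St
import Pool.Agent.Helper89.EX.DV

set_option autoImplicit false

namespace Pool.Agent.Helper91.KT

open Finset SimpleGraph Filter Topology
open EX Pool.Agent.Helper7.KT

open scoped Classical

theorem hKEX : StKEX := by
  intro U G V Γ hfree r S
  refine kc_le_exK G Γ r S ?_
  rintro ⟨f⟩
  exact hfree ⟨(SimpleGraph.Embedding.induce (S : Set V)).toCopy.comp f⟩

end Pool.Agent.Helper91.KT
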